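import Mathlib

open Set Filter Topology Cardinal

namespace Pool.Agent.Results.MP_6ca30a_an.NoUniversal

/-- Free filters on `ℕ`. -/
def IsFree (F : Filter ℕ) : Prop := F.NeBot ∧ F ≤ cofinite

/-- The sequence `x` is Cauchy over `F`. -/
def CauchyOver {X : Type} [AddCommGroup X] [TopologicalSpace X] (F : Filter ℕ) (x : ℕ → X) : Prop :=
  ∀ V ∈ 𝓝 (0 : X), ∃ B ∈ F, ∀ m ∈ B, ∀ n ∈ B, x m - x n ∈ V

/-- The sequence `x` converges to `y` over `F`. -/
def ConvergesOver {X : Type} [TopologicalSpace X] (F : Filter ℕ) (x : ℕ → X) (y : X) : Prop :=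
  ∀ V ∈ 𝓝 y, ∃ A ∈ F, ∀ n ∈ A, x n ∈ V

/-- `X` is complete over `F`. -/
def CompleteOver (X : Type) [AddCommGroup X] [TopologicalSpace X] (F : Filter ℕ) : Prop :=
  ∀ x : ℕ → X, CauchyOver F x → ∃ y : X, ConvergesOver F x y

/-- `X` is countably complete. -/
def CountablyComplete (X : Type) [AddCommGroup X] [TopologicalSpace X] : Prop :=
  ∀ F : Filter ℕ, IsFree F → CompleteOver X F

/-- The index set. -/
abbrev T : Type := ℕ → Bool

/-- Codes of clopen subsets of the Cantor space. -/
abbrev D : Type := Σ k : ℕ, Finset (Fin k → Bool)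

/-- The indicator of the clopen set with code `d`. -/
noncomputable def φ (d : D) (t : T) : ℝ := by
  classical
  exact if (fun i : Fin d.1 => t i) ∈ d.2 then 1 else 0

/-- Interpolation on finite sets by clopen indicators. -/
theorem interp (S : Set T) (I : Finset T) : ∃ d : D, ∀ t ∈ I, φ d t = S.indicator (fun _ => 1) t := by
  classical
  -- a length separating the points of `I`
  have hsep : ∃ k : ℕ, ∀ s ∈ I, ∀ t ∈ I, (∀ i < k, s i = t i) → s = t := by
    have h1 : ∀ p : T × T, ∃ k : ℕ, (∀ i < k, p.1 i = p.2 i) → p.1 = p.2 := by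
      intro p
      by_cases h : p.1 = p.2
      · exact ⟨0, fun _ => h⟩
      · obtain ⟨i, hi⟩ := Function.ne_iff.mp h
        exact ⟨i + 1, fun h' => absurd (h' i (Nat.lt_succ_self i)) hi⟩
    choose k hk using h1
    refine ⟨(I ×ˢ I).sup k, fun s hs t ht h => hk (s, t) (fun i hi => h i ?_)⟩
    exact lt_of_lt_of_le hi (Finset.le_sup (f := k) (Finset.mk_mem_product hs ht))
  obtain ⟨k, hk⟩ := hsep
  refine ⟨⟨k, (I.filter (fun t => t ∈ S)).image (fun t => fun i : Fin k => t i)⟩, ?_⟩
  intro t ht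
  unfold φ
  by_cases htS : t ∈ S
  · rw [indicator_of_mem htS, if_pos]
    exact Finset.mem_image.mpr ⟨t, Finset.mem_filter.mpr ⟨ht, htS⟩, rfl⟩
  · rw [indicator_of_notMem htS, if_neg]
    intro hmem
    obtain ⟨s, hs, hst⟩ := Finset.mem_image.mp hmem
    rw [Finset.mem_filter] at hs
    have : s = t := hk s hs.1 t ht (fun i hi => congrFun hst ⟨i, hi⟩)
    rw [this] at hs
    exact htS hs.2

/-- An enumeration of the codes in which every code occurs infinitely often. -/
theorem exists_enum : ∃ e : ℕ → D, ∀ d, {n | e n = d}.Infinite := by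
  have : Nonempty D := ⟨⟨0, ∅⟩⟩
  obtain ⟨g, hg⟩ := exists_surjective_nat D
  refine ⟨fun n => g n.unpair.1, fun d => ?_⟩
  obtain ⟨m, hm⟩ := hg d
  have : Function.Injective (fun k : ℕ => Nat.pair m k) := by
    intro a b hab
    have := congrArg (fun z => (Nat.unpair z).2) hab
    simpa using this
  refine (infinite_range_of_injective this).mono ?_
  rintro _ ⟨k, rfl⟩
  show g (Nat.pair m k).unpair.1 = d
  rw [Nat.unpair_pair]
  exact hm

/-- The enumeration. -/
noncomputable def en : ℕ → D := Classical.choose exists_enum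
theorem en_spec (d : D) : {n | en n = d}.Infinite := Classical.choose_spec exists_enum d

/-- The sequence. -/
noncomputable def x0 (n : ℕ) : T → ℝ := φ (en n)

/-- Every indicator function is a limit of the sequence over a free filter. -/
theorem exists_filter (S : Set T) : ∃ F : Filter ℕ, IsFree F ∧
    Tendsto x0 F (𝓝 (S.indicator (fun _ => 1))) := by
  refine ⟨comap x0 (𝓝 (S.indicator (fun _ => 1))) ⊓ cofinite, ⟨?_, inf_le_right⟩,
    tendsto_comap.mono_left inf_le_left⟩
  rw [inf_neBot_iff_frequently_left]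
  intro p hp
  rw [eventually_comap] at hp
  obtain ⟨V, hV, hVp⟩ := mem_nhds_iff.mp hp
  obtain ⟨hVo, hSV⟩ := hVp
  obtain ⟨I, u, hu, hI⟩ := isOpen_pi_iff.mp hVo _ hSV
  obtain ⟨d, hd⟩ := interp S I
  have hmem : φ d ∈ V := by
    apply hI
    intro t ht
    rw [hd t (Finset.mem_coe.mp ht)]
    exact (hu t (Finset.mem_coe.mp ht)).2
  rw [frequently_cofinite_iff_infinite]
  refine (en_spec d).mono ?_
  intro n hn
  have hn' : en n = d := hn
  refine hV ?_ n rfl
  show φ (en n) ∈ V
  rw [hn']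
  exact hmem

/-- Labels of the nodes of terms: a vector of the sequence, a linear combination, a limit. -/
abbrev Lab : Type := ℕ ⊕ (ℝ ⊕ Unit)

/-- Arities. -/
def Ar : Lab → Type
  | Sum.inl _ => Empty
  | Sum.inr (Sum.inl _) => Bool
  | Sum.inr (Sum.inr _) => ℕ

/-- Terms. -/
abbrev W : Type := WType Ar

theorem card_W : #W ≤ 𝔠 := by
  apply WType.cardinalMk_le_of_le'
  have h1 : ∀ a : Lab, 𝔠 ^ lift.{0} #(Ar a) ≤ 𝔠 := by
    intro a
    rw [Cardinal.lift_id]
    rcases a with n | c | u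
    · show 𝔠 ^ #Empty ≤ 𝔠
      simp
      exact Cardinal.one_le_aleph0.trans aleph0_le_continuum
    · show 𝔠 ^ #Bool ≤ 𝔠
      simp
      have : (𝔠 : Cardinal.{0}) ^ (2 : ℕ) = 𝔠 := by
        rw [pow_two, continuum_mul_self]
      exact_mod_cast this.le
    · show 𝔠 ^ #ℕ ≤ 𝔠
      simp
  refine (Cardinal.sum_le_sum _ _ h1).trans ?_
  rw [Cardinal.sum_const']
  have h2 : #Lab ≤ 𝔠 := by
    simp only [Lab, mk_sum, Cardinal.lift_id, mk_nat, Cardinal.mk_real, mk_unit]
    exact Cardinal.add_le_of_le aleph0_le_continuum aleph0_le_continuum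
      (Cardinal.add_le_of_le aleph0_le_continuum le_rfl
        (Cardinal.one_le_aleph0.trans aleph0_le_continuum))
  calc #Lab * 𝔠 ≤ 𝔠 * 𝔠 := mul_le_mul' h2 le_rfl
    _ = 𝔠 := continuum_mul_self

/-- Evaluation of terms, with limits taken over the filter `U`. -/
noncomputable def eval (U : Filter ℕ) : W → (T → ℝ) :=
  WType.elim (T → ℝ) (fun p => match p with
    | ⟨Sum.inl n, _⟩ => x0 n
    | ⟨Sum.inr (Sum.inl c), f⟩ => c • f true + f false
    | ⟨Sum.inr (Sum.inr _), f⟩ => fun t => limUnder U (fun n : ℕ => f n t))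

theorem eval_base (U : Filter ℕ) (n : ℕ) (f : Ar (Sum.inl n) → W) :
    eval U (WType.mk (Sum.inl n) f) = x0 n := rfl

theorem eval_comb (U : Filter ℕ) (c : ℝ) (f : Bool → W) :
    eval U (WType.mk (Sum.inr (Sum.inl c)) f) = c • eval U (f true) + eval U (f false) := rfl

theorem eval_lim (U : Filter ℕ) (f : ℕ → W) :
    eval U (WType.mk (Sum.inr (Sum.inr ())) f) =
      fun t => limUnder U (fun n : ℕ => eval U (f n) t) := rfl

theorem range_comb (U : Filter ℕ) {x y : T → ℝ} (c : ℝ) (hx : x ∈ range (eval U))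
    (hy : y ∈ range (eval U)) : c • x + y ∈ range (eval U) := by
  obtain ⟨w, rfl⟩ := hx
  obtain ⟨v, rfl⟩ := hy
  exact ⟨WType.mk (Sum.inr (Sum.inl c)) (fun b : Bool => if b then w else v), rfl⟩

theorem zero_range (U : Filter ℕ) : (0 : T → ℝ) ∈ range (eval U) := by
  have h : x0 0 ∈ range (eval U) := ⟨WType.mk (Sum.inl 0) Empty.elim, rfl⟩
  have := range_comb U (-1) h h
  simpa using this

/-- The space. -/
noncomputable def XS (U : Filter ℕ) : Submodule ℝ (T → ℝ) where
  carrier := range (eval U)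
  add_mem' := fun {x y} hx hy => by
    have := range_comb U 1 hx hy
    rwa [one_smul] at this
  zero_mem' := zero_range U
  smul_mem' := fun c x hx => by
    have := range_comb U c hx (zero_range U)
    rwa [add_zero] at this

theorem card_XS (U : Filter ℕ) : #(XS U) ≤ 𝔠 :=
  (Cardinal.mk_range_le (f := eval U)).trans card_W

theorem complete (U : Ultrafilter ℕ) : CompleteOver (XS U) (U : Filter ℕ) := by
  intro x hx
  -- pointwise limits exist
  have hpt : ∀ t : T, ∃ l : ℝ, Tendsto (fun n => (x n : T → ℝ) t) U (𝓝 l) := by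
    intro t
    have hC : Cauchy (map (fun n => (x n : T → ℝ) t) (U : Filter ℕ)) := by
      rw [Metric.cauchy_iff]
      refine ⟨inferInstance, fun ε hε => ?_⟩
      have hcont : Continuous (fun v : XS U => (v : T → ℝ) t) :=
        (continuous_apply t).comp continuous_subtype_val
      have hV : {v : XS U | |(v : T → ℝ) t| < ε} ∈ 𝓝 (0 : XS U) := by
        have h1 : IsOpen {v : XS U | |(v : T → ℝ) t| < ε} :=
          isOpen_lt hcont.abs continuous_const
        refine h1.mem_nhds ?_
        show |(0 : ℝ)| < ε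
        rwa [abs_zero]
      obtain ⟨B, hB, hB2⟩ := hx _ hV
      refine ⟨(fun n => (x n : T → ℝ) t) '' B, image_mem_map hB, ?_⟩
      rintro _ ⟨m, hm, rfl⟩ _ ⟨n, hn, rfl⟩
      rw [Real.dist_eq]
      exact hB2 m hm n hn
    obtain ⟨l, hl⟩ := CompleteSpace.complete hC
    exact ⟨l, hl⟩
  choose w hw using fun n => (x n).2
  choose l hl using hpt
  have hlim : l = eval U (WType.mk (Sum.inr (Sum.inr ())) w) := by
    rw [eval_lim]
    funext t
    refine (Tendsto.limUnder_eq ?_).symm
    refine (hl t).congr (fun n => ?_)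
    rw [hw n]
  refine ⟨⟨l, ⟨_, hlim.symm⟩⟩, ?_⟩
  have htend : Tendsto x U (𝓝 (⟨l, ⟨_, hlim.symm⟩⟩ : XS U)) := by
    rw [tendsto_subtype_rng, tendsto_pi_nhds]
    exact hl
  intro V hV
  exact ⟨x ⁻¹' V, htend hV, fun n hn => hn⟩

theorem not_countably (U : Filter ℕ) : ¬ CountablyComplete (XS U) := by
  intro hcc
  -- a subset of `T` whose indicator is not in the space
  obtain ⟨S, hS⟩ : ∃ S : Set T, S.indicator (fun _ => (1 : ℝ)) ∉ XS U := by
    by_contra hcon
    push Not at hcon
    have hinj : Function.Injective (fun S : Set T =>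
        (⟨S.indicator (fun _ => (1 : ℝ)), hcon S⟩ : XS U)) := by
      intro S S' h
      have h1 : S.indicator (fun _ => (1 : ℝ)) = S'.indicator (fun _ => (1 : ℝ)) :=
        congrArg Subtype.val h
      ext t
      have h2 := congrFun h1 t
      by_cases h3 : t ∈ S <;> by_cases h4 : t ∈ S' <;> simp [h3, h4] at h2 ⊢
    have h1 := Cardinal.mk_le_of_injective hinj
    have h2 := h1.trans (card_XS U)
    rw [Cardinal.mk_set] at h2
    have h3 : #T = 𝔠 := by simp [T]
    rw [h3] at h2
    exact absurd h2 (not_le.mpr (Cardinal.cantor 𝔠))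
  obtain ⟨F, hF, hlim⟩ := exists_filter S
  have := hF.1
  have hmem : ∀ n, x0 n ∈ XS U := fun n => ⟨WType.mk (Sum.inl n) Empty.elim, rfl⟩
  let x : ℕ → XS U := fun n => ⟨x0 n, hmem n⟩
  have hC : CauchyOver F x := by
    intro V hV
    rw [nhds_subtype_eq_comap, mem_comap] at hV
    obtain ⟨V', hV', hsub⟩ := hV
    have h1 : Tendsto (fun p : (T → ℝ) × (T → ℝ) => p.1 - p.2)
        (𝓝 (S.indicator (fun _ => (1 : ℝ))) ×ˢ 𝓝 (S.indicator (fun _ => (1 : ℝ)))) (𝓝 0) := by
      have h2 : Continuous (fun p : (T → ℝ) × (T → ℝ) => p.1 - p.2) :=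
        continuous_fst.sub continuous_snd
      have h3 := h2.tendsto (S.indicator (fun _ => (1 : ℝ)), S.indicator (fun _ => (1 : ℝ)))
      rw [nhds_prod_eq] at h3
      simpa using h3
    have h2 : V' ∈ 𝓝 (0 : T → ℝ) := hV'
    have h3 := h1 h2
    obtain ⟨A, hA, B, hB, hAB⟩ := Filter.mem_prod_iff.mp h3
    refine ⟨x0 ⁻¹' A ∩ x0 ⁻¹' B, inter_mem (hlim hA) (hlim hB), fun m hm n hn => hsub ?_⟩
    exact hAB (mk_mem_prod hm.1 hn.2)
  obtain ⟨y, hy⟩ := hcc F hF x hC
  have hty : Tendsto x F (𝓝 y) := by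
    intro V hV
    obtain ⟨A, hA, hA2⟩ := hy V hV
    rw [mem_map]
    exact mem_of_superset hA hA2
  have h1 : Tendsto x0 F (𝓝 (y : T → ℝ)) := (continuous_subtype_val.tendsto y).comp hty
  have h2 := tendsto_nhds_unique h1 hlim
  apply hS
  rw [← h2]
  exact y.2

/-- For every free ultrafilter there is a Hausdorff topological vector space that is complete over
it but not countably complete. -/
theorem result : ∀ U : Ultrafilter ℕ, IsFree (U : Filter ℕ) →
    ∃ (X : Type) (_ : AddCommGroup X) (_ : Module ℝ X) (_ : TopologicalSpace X),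
      IsTopologicalAddGroup X ∧ ContinuousSMul ℝ X ∧ T2Space X ∧
      CompleteOver X (U : Filter ℕ) ∧ ¬ CountablyComplete X :=
  fun U _ => ⟨XS U, inferInstance, inferInstance, inferInstance, inferInstance, inferInstance,
    inferInstance, complete U, not_countably U⟩

end Pool.Agent.Results.MP_6ca30a_an.NoUniversal
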